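import Mathlib

/-!
# Closed subgroups of finite-dimensional real vector spaces
-/

open Filter Topology Metric

namespace Pool.Agent.H421R2

/-- A closed subgroup of a finite-dimensional real vector space with infinitely many elements in
some bounded set contains a line. -/
lemma exists_line {F : Type*} [NormedAddCommGroup F] [NormedSpace ℝ F] [FiniteDimensional ℝ F]
    (D : AddSubgroup F) (hD : IsClosed (D : Set F)) (x : ℕ → F) (hx : ∀ n, x n ∈ D)
    (hinj : Function.Injective x) (C : ℝ) (hC : ∀ n, ‖x n‖ ≤ C) :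
    ∃ w : F, w ≠ 0 ∧ ∀ t : ℝ, t • w ∈ D := by
  have : ProperSpace F := FiniteDimensional.proper ℝ F
  -- small nonzero elements
  have hsmall : ∀ ε : ℝ, 0 < ε → ∃ w ∈ D, w ≠ 0 ∧ ‖w‖ < ε := by
    intro ε hε
    obtain ⟨a, -, φ, hφ, hlim⟩ :=
      (isCompact_closedBall (0 : F) C).tendsto_subseq (x := x) (fun n => by simpa using hC n)
    have hc : CauchySeq (x ∘ φ) := hlim.cauchySeq
    rw [Metric.cauchySeq_iff] at hc
    obtain ⟨N, hN⟩ := hc ε hε
    refine ⟨x (φ (N + 1)) - x (φ N), D.sub_mem (hx _) (hx _), ?_, ?_⟩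
    · intro h
      have := hinj (sub_eq_zero.mp h)
      have := hφ.injective this
      omega
    · have := hN (N + 1) (by omega) N (by omega)
      simpa [dist_eq_norm] using this
  choose w hwD hw0 hwn using fun n : ℕ => hsmall (1 / ((n : ℝ) + 1)) (by positivity)
  have hnpos : ∀ n, 0 < ‖w n‖ := fun n => norm_pos_iff.mpr (hw0 n)
  obtain ⟨u, hu, φ, hφ, hlim⟩ :=
    (isCompact_sphere (0 : F) 1).tendsto_subseq (x := fun n => ‖w n‖⁻¹ • w n)
      (fun n => by
        rw [mem_sphere_zero_iff_norm, norm_smul, norm_inv, norm_norm,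
          inv_mul_cancel₀ (hnpos n).ne'])
  have hu1 : ‖u‖ = 1 := by simpa using hu
  refine ⟨u, by intro h; simp [h] at hu1, fun t => ?_⟩
  have hw_lim : Tendsto (fun n => ‖w (φ n)‖) atTop (𝓝 0) := by
    have h1 : Tendsto (fun n : ℕ => 1 / ((n : ℝ) + 1)) atTop (𝓝 0) :=
      tendsto_one_div_add_atTop_nhds_zero_nat
    have h2 : Tendsto (fun n => ‖w n‖) atTop (𝓝 0) :=
      squeeze_zero (fun n => norm_nonneg _) (fun n => (hwn n).le) h1
    exact h2.comp hφ.tendsto_atTop
  -- the integers `m n`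
  let m : ℕ → ℤ := fun n => ⌊t / ‖w (φ n)‖⌋
  have hm : Tendsto (fun n => (m n : ℝ) * ‖w (φ n)‖) atTop (𝓝 t) := by
    have hb : ∀ n, |(m n : ℝ) * ‖w (φ n)‖ - t| ≤ ‖w (φ n)‖ := by
      intro n
      have h1 := Int.floor_le (t / ‖w (φ n)‖)
      have h2 := Int.lt_floor_add_one (t / ‖w (φ n)‖)
      have hp := hnpos (φ n)
      have h3 : t = t / ‖w (φ n)‖ * ‖w (φ n)‖ := by field_simp
      rw [abs_le]
      constructor
      · have : (t / ‖w (φ n)‖ - 1) * ‖w (φ n)‖ ≤ (m n : ℝ) * ‖w (φ n)‖ :=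
          mul_le_mul_of_nonneg_right (by linarith) hp.le
        nlinarith
      · have : (m n : ℝ) * ‖w (φ n)‖ ≤ t / ‖w (φ n)‖ * ‖w (φ n)‖ :=
          mul_le_mul_of_nonneg_right h1 hp.le
        nlinarith
    rw [tendsto_iff_norm_sub_tendsto_zero]
    exact squeeze_zero (fun n => norm_nonneg _) (fun n => by simpa using hb n) hw_lim
  have hlim2 : Tendsto (fun n => ((m n : ℝ) * ‖w (φ n)‖) • (‖w (φ n)‖⁻¹ • w (φ n))) atTop
      (𝓝 (t • u)) := hm.smul hlim
  refine hD.mem_of_tendsto hlim2 (Eventually.of_forall fun n => ?_)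
  have hp := hnpos (φ n)
  rw [smul_smul, mul_assoc, mul_inv_cancel₀ hp.ne', mul_one]
  have : ((m n : ℝ)) • w (φ n) = (m n) • w (φ n) :=
    Int.cast_smul_eq_zsmul ℝ (m n) (w (φ n))
  rw [this]
  exact D.zsmul_mem (hwD _) _

/-- If a closed subgroup `H` of a finite-dimensional real vector space contains a bounded sequence
with pairwise different images under a linear map `ρ`, then `H` contains a line on which `ρ` is
not zero. -/
lemma exists_line_map_ne_zero {F F' : Type*} [NormedAddCommGroup F] [NormedSpace ℝ F]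
    [FiniteDimensional ℝ F] [AddCommGroup F'] [Module ℝ F']
    (H : AddSubgroup F) (hH : IsClosed (H : Set F)) (ρ : F →ₗ[ℝ] F')
    (x : ℕ → F) (hx : ∀ n, x n ∈ H) (hinj : Function.Injective (fun n => ρ (x n)))
    (C : ℝ) (hC : ∀ n, ‖x n‖ ≤ C) :
    ∃ v : F, ρ v ≠ 0 ∧ ∀ t : ℝ, t • v ∈ H := by
  by_contra hcon
  push Not at hcon
  let V : Submodule ℝ F :=
    { carrier := {v | ∀ t : ℝ, t • v ∈ H}
      add_mem' := fun {a b} ha hb t => by
        rw [smul_add]; exact H.add_mem (ha t) (hb t)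
      zero_mem' := fun t => by simp
      smul_mem' := fun c v hv t => by rw [smul_smul]; exact hv _ }
  have hVH : ∀ v ∈ V, v ∈ H := fun v hv => by simpa using hv 1
  have hV0 : ∀ v ∈ V, ρ v = 0 := by
    intro v hv
    by_contra h
    obtain ⟨t, ht⟩ := hcon v h
    exact ht (hv t)
  obtain ⟨W, hW⟩ := V.exists_isCompl
  let pW : F →ₗ[ℝ] F := W.projection V hW.symm
  have hpW : ∀ y, pW y ∈ W := fun y => Submodule.projection_apply_mem _ y
  have hpV : ∀ y, y - pW y ∈ V := by
    intro y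
    rw [← Submodule.projection_apply_eq_zero_iff hW.symm, map_sub]
    have : W.projection V hW.symm (pW y) = pW y :=
      Submodule.projection_apply_of_mem_left hW.symm (hpW y)
    rw [this, sub_self]
  let D : AddSubgroup F := H ⊓ W.toAddSubgroup
  have hDc : IsClosed (D : Set F) := by
    have : (D : Set F) = (H : Set F) ∩ (W : Set F) := rfl
    rw [this]
    exact hH.inter W.closed_of_finiteDimensional
  have hpD : ∀ n, pW (x n) ∈ D := by
    intro n
    refine ⟨?_, hpW _⟩
    have h := hVH _ (hpV (x n))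
    have : pW (x n) = x n - (x n - pW (x n)) := by abel
    rw [this]
    exact H.sub_mem (hx n) h
  have hρ : ∀ n, ρ (pW (x n)) = ρ (x n) := by
    intro n
    have := hV0 _ (hpV (x n))
    rw [map_sub, sub_eq_zero] at this
    exact this.symm
  have hinj' : Function.Injective (fun n => pW (x n)) := by
    intro a b hab
    apply hinj
    have : ρ (pW (x a)) = ρ (pW (x b)) := congrArg ρ hab
    simpa [hρ] using this
  let pWc : F →L[ℝ] F := pW.toContinuousLinearMap
  obtain ⟨w, hw0, hw⟩ := exists_line D hDc (fun n => pW (x n)) hpD hinj' (‖pWc‖ * C) (by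
    intro n
    calc ‖pW (x n)‖ = ‖pWc (x n)‖ := rfl
      _ ≤ ‖pWc‖ * ‖x n‖ := pWc.le_opNorm _
      _ ≤ ‖pWc‖ * C := mul_le_mul_of_nonneg_left (hC n) (norm_nonneg _))
  have hwV : w ∈ V := fun t => (hw t).1
  have hwW : w ∈ W := by simpa using (hw 1).2
  exact hw0 (Submodule.disjoint_def.mp hW.disjoint w hwV hwW)

end Pool.Agent.H421R2
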