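import Mathlib

/-!
# The sextic `X ^ 6 - 4 X ^ 2 - 2`
-/

open Polynomial

namespace Pool.Agent.H421R2

noncomputable section

/-- the sextic polynomial -/
def hZ : ℤ[X] := X ^ 6 - C 4 * X ^ 2 - C 2

lemma hZ_natDegree : hZ.natDegree = 6 := by
  unfold hZ; compute_degree!

lemma hZ_monic : hZ.Monic := by
  unfold hZ; monicity!

lemma hZ_irreducible : Irreducible hZ := by
  have hE : hZ.IsEisensteinAt (Ideal.span {(2 : ℤ)}) := by
    refine ⟨?_, ?_, ?_⟩
    · rw [hZ_monic.leadingCoeff]
      intro h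
      rw [Ideal.mem_span_singleton] at h
      norm_num at h
    · intro n hn
      rw [hZ_natDegree] at hn
      rw [Ideal.mem_span_singleton]
      unfold hZ
      interval_cases n <;> simp [coeff_X_pow]
    · rw [Ideal.span_singleton_pow, Ideal.mem_span_singleton]
      unfold hZ
      simp [coeff_X_pow]
  refine hE.irreducible ?_ hZ_monic.isPrimitive (by rw [hZ_natDegree]; norm_num)
  rw [Ideal.span_singleton_prime (by norm_num)]
  exact Int.prime_two

/-- the sextic polynomial over `ℚ` -/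
def hQ : ℚ[X] := hZ.map (Int.castRingHom ℚ)

lemma hQ_irreducible : Irreducible hQ :=
  (IsPrimitive.Int.irreducible_iff_irreducible_map_cast hZ_monic.isPrimitive).mp hZ_irreducible

lemma hQ_monic : hQ.Monic := hZ_monic.map _

lemma aeval_hQ {A : Type*} [Field A] [CharZero A] [Algebra ℚ A] (x : A) :
    aeval x hQ = x ^ 6 - 4 * x ^ 2 - 2 := by
  unfold hQ hZ
  simp only [Polynomial.map_sub, Polynomial.map_mul, Polynomial.map_pow, map_X, map_C, map_sub,
    map_mul, map_pow, aeval_X, aeval_C]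
  simp

lemma minpoly_eq {A : Type*} [Field A] [CharZero A] [Algebra ℚ A] (x : A)
    (hx : x ^ 6 - 4 * x ^ 2 - 2 = 0) : minpoly ℚ x = hQ :=
  (minpoly.eq_of_irreducible_of_monic hQ_irreducible (by rw [aeval_hQ, hx]) hQ_monic).symm

/-- An integer polynomial which vanishes at a root of the sextic vanishes at `n` modulo `ℓ` if the
sextic does. -/
lemma eval_zmod_eq_zero (t : ℝ) (ht : t ^ 6 - 4 * t ^ 2 - 2 = 0) (A : ℤ[X])
    (hA : aeval t A = 0) (ℓ : ℕ) (n : ZMod ℓ) (hn : n ^ 6 - 4 * n ^ 2 - 2 = 0) :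
    aeval n A = 0 := by
  have h1 : hQ ∣ A.map (Int.castRingHom ℚ) := by
    rw [← minpoly_eq t ht]
    apply minpoly.dvd
    rw [← hA]
    simp only [aeval_def, eval₂_map]
    congr 1
  have h2 : hZ ∣ A := (map_dvd_map (Int.castRingHom ℚ) Int.cast_injective hZ_monic).mp h1
  obtain ⟨C, rfl⟩ := h2
  rw [map_mul]
  have : aeval n hZ = 0 := by
    unfold hZ
    simp only [map_sub, map_mul, map_pow, aeval_X, aeval_C]
    simpa using hn
  rw [this, zero_mul]

end

end Pool.Agent.H421R2
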