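import Mathlib
import Pool.Agent.H421R2.Sextic

/-!
# The roots of the sextic and multiplicative independence
-/

open Polynomial

namespace Pool.Agent.H421R2

noncomputable section

instance fact5 : Fact (Nat.Prime 5) := ⟨by norm_num⟩
instance fact23 : Fact (Nat.Prime 23) := ⟨by norm_num⟩
instance fact691 : Fact (Nat.Prime 691) := ⟨by norm_num⟩

lemma exists_real_root : ∃ t : ℝ, 7 / 5 < t ∧ t < 3 / 2 ∧ t ^ 6 - 4 * t ^ 2 - 2 = 0 := by
  have hc : ContinuousOn (fun t : ℝ => t ^ 6 - 4 * t ^ 2 - 2) (Set.Icc (7 / 5) (3 / 2)) := by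
    fun_prop
  have h := intermediate_value_Ioo (by norm_num : (7 / 5 : ℝ) ≤ 3 / 2) hc
  obtain ⟨t, ht, h0⟩ := h (show (0 : ℝ) ∈ Set.Ioo _ _ by constructor <;> norm_num)
  exact ⟨t, ht.1, ht.2, h0⟩

lemma exists_s2 : ∃ s : ℝ, 7 / 10 < s ∧ s < 8 / 10 ∧ s ^ 6 - 4 * s ^ 2 + 2 = 0 := by
  have hc : ContinuousOn (fun t : ℝ => t ^ 6 - 4 * t ^ 2 + 2) (Set.Icc (7 / 10) (8 / 10)) := by
    fun_prop
  have h := intermediate_value_Ioo' (by norm_num : (7 / 10 : ℝ) ≤ 8 / 10) hc
  obtain ⟨t, ht, h0⟩ := h (show (0 : ℝ) ∈ Set.Ioo _ _ by constructor <;> norm_num)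
  exact ⟨t, ht.1, ht.2, h0⟩

lemma exists_s3 : ∃ s : ℝ, 12 / 10 < s ∧ s < 14 / 10 ∧ s ^ 6 - 4 * s ^ 2 + 2 = 0 := by
  have hc : ContinuousOn (fun t : ℝ => t ^ 6 - 4 * t ^ 2 + 2) (Set.Icc (12 / 10) (14 / 10)) := by
    fun_prop
  have h := intermediate_value_Ioo (by norm_num : (12 / 10 : ℝ) ≤ 14 / 10) hc
  obtain ⟨t, ht, h0⟩ := h (show (0 : ℝ) ∈ Set.Ioo _ _ by constructor <;> norm_num)
  exact ⟨t, ht.1, ht.2, h0⟩

/-- The complex roots of the sextic are `t`, `-t` and purely imaginary numbers. -/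
lemma root_cases (t : ℝ) (ht1 : 7 / 5 < t) (ht2 : t < 3 / 2) (ht : t ^ 6 - 4 * t ^ 2 - 2 = 0)
    (w : ℂ) (hw : w ^ 6 - 4 * w ^ 2 - 2 = 0) : w = t ∨ w = -t ∨ w.re = 0 := by
  set a : ℝ := t ^ 2 with ha
  have ha0 : 0 < a := by positivity
  have ha3 : a ^ 3 - 4 * a - 2 = 0 := by rw [ha]; linarith [ht, show (t ^ 2) ^ 3 = t ^ 6 by ring]
  have ha4 : 4 < a ^ 2 := by
    by_contra hcon
    push Not at hcon
    nlinarith
  have ha5 : a < 9 / 4 := by rw [ha]; nlinarith
  have hfac : (w ^ 2 - a) * ((w ^ 2) ^ 2 + a * w ^ 2 + a ^ 2 - 4) = 0 := by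
    have h3 : ((a : ℂ)) ^ 3 - 4 * a - 2 = 0 := by exact_mod_cast ha3
    linear_combination hw - h3
  rcases mul_eq_zero.mp hfac with h | h
  · have : (w - t) * (w + t) = 0 := by
      have : (a : ℂ) = (t : ℂ) ^ 2 := by rw [ha]; push_cast; ring
      rw [this] at h
      linear_combination h
    rcases mul_eq_zero.mp this with h' | h'
    · left; linear_combination h'
    · right; left; linear_combination h'
  · right; right
    set δ : ℝ := Real.sqrt (16 - 3 * a ^ 2) with hδ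
    have hδ2 : δ ^ 2 = 16 - 3 * a ^ 2 := Real.sq_sqrt (by nlinarith)
    have hδ0 : 0 ≤ δ := Real.sqrt_nonneg _
    have hδa : δ < a := by
      by_contra hcon
      push Not at hcon
      nlinarith
    have h2 : (2 * w ^ 2 + a - δ) * (2 * w ^ 2 + a + δ) = 0 := by
      have h3 : ((δ : ℂ)) ^ 2 = 16 - 3 * a ^ 2 := by exact_mod_cast hδ2
      linear_combination 4 * h - h3
    have h3 : ∃ c : ℝ, c < 0 ∧ w ^ 2 = (c : ℂ) := by
      rcases mul_eq_zero.mp h2 with h' | h'
      · refine ⟨(δ - a) / 2, by linarith, ?_⟩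
        push_cast
        linear_combination h' / 2
      · refine ⟨(-δ - a) / 2, by linarith, ?_⟩
        push_cast
        linear_combination h' / 2
    obtain ⟨c, hc, hwc⟩ := h3
    have hre := congrArg Complex.re hwc
    have him := congrArg Complex.im hwc
    simp only [sq, Complex.mul_re, Complex.mul_im, Complex.ofReal_re, Complex.ofReal_im] at hre him
    have : w.re * w.im = 0 := by linarith
    rcases mul_eq_zero.mp this with h' | h'
    · exact h'
    · rw [h'] at hre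
      nlinarith [mul_self_nonneg w.re]

/-- the numbers `log |(n - t) / (n + t)|` -/
def pp (t : ℝ) (n : ℕ) : ℝ := Real.log |((n : ℝ) - t) / (n + t)|

lemma pow_eq_exp (x : ℝ) (hx : |x| ≠ 0) (k : ℕ) :
    x ^ (2 * k) = Real.exp (2 * k * Real.log |x|) := by
  have h1 : Real.exp (2 * k * Real.log |x|) = |x| ^ (2 * k) := by
    rw [← Nat.cast_ofNat, ← Nat.cast_mul, Real.exp_nat_mul, Real.exp_log]
    exact lt_of_le_of_ne (abs_nonneg _) (Ne.symm hx)
  rw [h1, Even.pow_abs (even_two_mul k)]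

/-- The numbers `log |(n - t) / (n + t)|`, `n = 1, 2, 3`, are linearly independent over `ℤ`. -/
lemma pp_indep_int (t : ℝ) (ht1 : 7 / 5 < t) (ht2 : t < 3 / 2)
    (ht : t ^ 6 - 4 * t ^ 2 - 2 = 0) (e : Fin 3 → ℤ)
    (he : e 0 * pp t 1 + e 1 * pp t 2 + e 2 * pp t 3 = 0) : e = 0 := by
  -- absolute values
  have hx1 : |(1 : ℝ) - t| ≠ 0 := by rw [abs_ne_zero]; intro h; linarith
  have hx2 : |(2 : ℝ) - t| ≠ 0 := by rw [abs_ne_zero]; intro h; linarith
  have hx3 : |(3 : ℝ) - t| ≠ 0 := by rw [abs_ne_zero]; intro h; linarith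
  have hy1 : |(1 : ℝ) + t| ≠ 0 := by rw [abs_ne_zero]; intro h; linarith
  have hy2 : |(2 : ℝ) + t| ≠ 0 := by rw [abs_ne_zero]; intro h; linarith
  have hy3 : |(3 : ℝ) + t| ≠ 0 := by rw [abs_ne_zero]; intro h; linarith
  have hp1 : pp t 1 = Real.log |1 - t| - Real.log |1 + t| := by
    rw [pp, abs_div, Nat.cast_one, Real.log_div hx1 hy1]
  have hp2 : pp t 2 = Real.log |2 - t| - Real.log |2 + t| := by
    rw [pp, abs_div, Nat.cast_ofNat, Real.log_div hx2 hy2]
  have hp3 : pp t 3 = Real.log |3 - t| - Real.log |3 + t| := by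
    rw [pp, abs_div, Nat.cast_ofNat, Real.log_div hx3 hy3]
  -- positive and negative parts
  set u : Fin 3 → ℕ := fun i => (e i).toNat with hu
  set v : Fin 3 → ℕ := fun i => (-e i).toNat with hv
  have huv : ∀ i, (e i : ℝ) = (u i : ℝ) - (v i : ℝ) := by
    intro i
    have : e i = (u i : ℤ) - (v i : ℤ) := by simp only [hu, hv]; omega
    exact_mod_cast this
  have huv0 : ∀ i, u i = 0 ∨ v i = 0 := by
    intro i
    simp only [hu, hv]; omega
  let A : ℤ[X] := ((1 - X) ^ (2 * u 0) * (1 + X) ^ (2 * v 0)) *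
    ((2 - X) ^ (2 * u 1) * (2 + X) ^ (2 * v 1)) * ((3 - X) ^ (2 * u 2) * (3 + X) ^ (2 * v 2))
  let B : ℤ[X] := ((1 + X) ^ (2 * u 0) * (1 - X) ^ (2 * v 0)) *
    ((2 + X) ^ (2 * u 1) * (2 - X) ^ (2 * v 1)) * ((3 + X) ^ (2 * u 2) * (3 - X) ^ (2 * v 2))
  have hAt : aeval t A = ((1 - t) ^ (2 * u 0) * (1 + t) ^ (2 * v 0)) *
    ((2 - t) ^ (2 * u 1) * (2 + t) ^ (2 * v 1)) * ((3 - t) ^ (2 * u 2) * (3 + t) ^ (2 * v 2)) := by
    simp [A, map_ofNat]
  have hBt : aeval t B = ((1 + t) ^ (2 * u 0) * (1 - t) ^ (2 * v 0)) *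
    ((2 + t) ^ (2 * u 1) * (2 - t) ^ (2 * v 1)) * ((3 + t) ^ (2 * u 2) * (3 - t) ^ (2 * v 2)) := by
    simp [B, map_ofNat]
  have hAB : aeval t A = aeval t B := by
    rw [hAt, hBt]
    simp only [pow_eq_exp _ hx1, pow_eq_exp _ hx2, pow_eq_exp _ hx3, pow_eq_exp _ hy1,
      pow_eq_exp _ hy2, pow_eq_exp _ hy3, ← Real.exp_add]
    congr 1
    rw [hp1, hp2, hp3, huv, huv, huv] at he
    linear_combination 2 * he
  have hsub : aeval t (A - B) = 0 := by rw [map_sub, hAB, sub_self]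
  have key : ∀ (ℓ : ℕ) (n : ZMod ℓ), n ^ 6 - 4 * n ^ 2 - 2 = 0 →
      ((1 - n) ^ (2 * u 0) * (1 + n) ^ (2 * v 0)) *
      ((2 - n) ^ (2 * u 1) * (2 + n) ^ (2 * v 1)) * ((3 - n) ^ (2 * u 2) * (3 + n) ^ (2 * v 2)) =
      ((1 + n) ^ (2 * u 0) * (1 - n) ^ (2 * v 0)) *
      ((2 + n) ^ (2 * u 1) * (2 - n) ^ (2 * v 1)) * ((3 + n) ^ (2 * u 2) * (3 - n) ^ (2 * v 2)) := by
    intro ℓ n hn
    have h := eval_zmod_eq_zero t ht (A - B) hsub ℓ n hn
    rw [map_sub, sub_eq_zero] at h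
    simpa [A, B, map_ofNat] using h
  have e0 : u 0 = 0 ∧ v 0 = 0 := by
    have h := key 5 1 (by decide)
    by_contra hcon
    rcases huv0 0 with h0 | h0
    · have hv0 : v 0 ≠ 0 := fun h' => hcon ⟨h0, h'⟩
      have hz : (1 - 1 : ZMod 5) ^ (2 * v 0) = 0 := by
        rw [sub_self, zero_pow (by omega)]
      rw [hz, h0] at h
      revert h
      simp only [mul_zero, zero_mul, pow_zero, one_mul]
      refine mul_ne_zero (mul_ne_zero (pow_ne_zero _ (by decide))
        (mul_ne_zero (pow_ne_zero _ (by decide)) (pow_ne_zero _ (by decide))))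
        (mul_ne_zero (pow_ne_zero _ (by decide)) (pow_ne_zero _ (by decide)))
    · have hu0 : u 0 ≠ 0 := fun h' => hcon ⟨h', h0⟩
      have hz : (1 - 1 : ZMod 5) ^ (2 * u 0) = 0 := by
        rw [sub_self, zero_pow (by omega)]
      rw [hz, h0] at h
      revert h
      simp only [mul_zero, zero_mul, pow_zero, mul_one]
      refine (mul_ne_zero (mul_ne_zero (pow_ne_zero _ (by decide))
        (mul_ne_zero (pow_ne_zero _ (by decide)) (pow_ne_zero _ (by decide))))
        (mul_ne_zero (pow_ne_zero _ (by decide)) (pow_ne_zero _ (by decide)))).symm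
  have e1 : u 1 = 0 ∧ v 1 = 0 := by
    have h := key 23 2 (by decide)
    by_contra hcon
    rcases huv0 1 with h0 | h0
    · have hv0 : v 1 ≠ 0 := fun h' => hcon ⟨h0, h'⟩
      have hz : (2 - 2 : ZMod 23) ^ (2 * v 1) = 0 := by
        rw [sub_self, zero_pow (by omega)]
      rw [hz, h0] at h
      revert h
      simp only [mul_zero, zero_mul, pow_zero, one_mul]
      refine mul_ne_zero (mul_ne_zero
        (mul_ne_zero (pow_ne_zero _ (by decide)) (pow_ne_zero _ (by decide)))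
        (pow_ne_zero _ (by decide)))
        (mul_ne_zero (pow_ne_zero _ (by decide)) (pow_ne_zero _ (by decide)))
    · have hu0 : u 1 ≠ 0 := fun h' => hcon ⟨h', h0⟩
      have hz : (2 - 2 : ZMod 23) ^ (2 * u 1) = 0 := by
        rw [sub_self, zero_pow (by omega)]
      rw [hz, h0] at h
      revert h
      simp only [mul_zero, zero_mul, pow_zero, mul_one]
      refine (mul_ne_zero (mul_ne_zero
        (mul_ne_zero (pow_ne_zero _ (by decide)) (pow_ne_zero _ (by decide)))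
        (pow_ne_zero _ (by decide)))
        (mul_ne_zero (pow_ne_zero _ (by decide)) (pow_ne_zero _ (by decide)))).symm
  have e2 : u 2 = 0 ∧ v 2 = 0 := by
    have h := key 691 3 (by decide)
    by_contra hcon
    rcases huv0 2 with h0 | h0
    · have hv0 : v 2 ≠ 0 := fun h' => hcon ⟨h0, h'⟩
      have hz : (3 - 3 : ZMod 691) ^ (2 * v 2) = 0 := by
        rw [sub_self, zero_pow (by omega)]
      rw [hz, h0] at h
      revert h
      simp only [mul_zero, zero_mul, pow_zero, one_mul]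
      refine mul_ne_zero (mul_ne_zero
        (mul_ne_zero (pow_ne_zero _ (by decide)) (pow_ne_zero _ (by decide)))
        (mul_ne_zero (pow_ne_zero _ (by decide)) (pow_ne_zero _ (by decide))))
        (pow_ne_zero _ (by decide))
    · have hu0 : u 2 ≠ 0 := fun h' => hcon ⟨h', h0⟩
      have hz : (3 - 3 : ZMod 691) ^ (2 * u 2) = 0 := by
        rw [sub_self, zero_pow (by omega)]
      rw [hz, h0] at h
      revert h
      simp only [mul_zero, zero_mul, pow_zero, mul_one]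
      refine (mul_ne_zero (mul_ne_zero
        (mul_ne_zero (pow_ne_zero _ (by decide)) (pow_ne_zero _ (by decide)))
        (mul_ne_zero (pow_ne_zero _ (by decide)) (pow_ne_zero _ (by decide))))
        (pow_ne_zero _ (by decide))).symm
  funext i
  have h3 : ∀ i, e i = (u i : ℤ) - (v i : ℤ) := by
    intro i; simp only [hu, hv]; omega
  rw [h3]
  fin_cases i
  · simp [e0.1, e0.2]
  · simp [e1.1, e1.2]
  · simp [e2.1, e2.2]

end

end Pool.Agent.H421R2
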