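import Mathlib

/-!
# The torus `A = R_{K/ℚ}(𝔾_m)` and the real part of the expected answer

For a number field `K` and a commutative `ℚ`-algebra `R` the group of `R`-points of
`A = R_{K/ℚ}(𝔾_m)` is `(R ⊗[ℚ] K)ˣ`.
-/

open scoped TensorProduct NumberField

namespace Pool.Agent.H421R2

noncomputable section

/-- The coordinates of an element of `R ⊗[ℚ] K` with respect to a fixed `ℚ`-basis of `K`
(an integral basis). -/
def coord (K : Type) [Field K] [NumberField K] (R : Type) [CommRing R] [Algebra ℚ R]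
    (u : R ⊗[ℚ] K) (i : Module.Free.ChooseBasisIndex ℤ (𝓞 K)) : R :=
  (Algebra.TensorProduct.basis R (NumberField.integralBasis K)).repr u i

/-- An algebraic subgroup `B`, defined over `ℚ`, of the torus `A = R_{K/ℚ}(𝔾_m)`: a set `eqs` of
polynomials with rational coefficients in the coordinates of `K` with respect to a `ℚ`-basis
such that, for every commutative `ℚ`-algebra `R`, the common zeros of these polynomials in
`A(R) = (R ⊗[ℚ] K)ˣ` form a subgroup `B(R)` of `A(R)`. -/
structure AlgSubgroup (K : Type) [Field K] [NumberField K] where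
  /-- the equations of `B` -/
  eqs : Set (MvPolynomial (Module.Free.ChooseBasisIndex ℤ (𝓞 K)) ℚ)
  /-- the group `B(R)` -/
  points : ∀ (R : Type) [CommRing R] [Algebra ℚ R], Subgroup (R ⊗[ℚ] K)ˣ
  /-- `B(R)` is the set of zeros of the equations in `A(R)` -/
  mem_points : ∀ (R : Type) [CommRing R] [Algebra ℚ R] (u : (R ⊗[ℚ] K)ˣ),
    u ∈ points R ↔ ∀ f ∈ eqs, MvPolynomial.aeval (coord K R (u : R ⊗[ℚ] K)) f = 0

/-- `ℝ ⊗[ℚ] K` carries its topology of a finite-dimensional real vector space. -/
instance instTopologicalSpaceReal (K : Type) [Field K] [NumberField K] :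
    TopologicalSpace (ℝ ⊗[ℚ] K) :=
  moduleTopology ℝ (ℝ ⊗[ℚ] K)

instance instIsModuleTopologyReal (K : Type) [Field K] [NumberField K] :
    IsModuleTopology ℝ (ℝ ⊗[ℚ] K) := ⟨rfl⟩

instance instIsTopologicalRingReal (K : Type) [Field K] [NumberField K] :
    IsTopologicalRing (ℝ ⊗[ℚ] K) :=
  IsModuleTopology.isTopologicalRing ℝ (ℝ ⊗[ℚ] K)

/-- The inclusion `A(ℚ) = Kˣ → A(ℝ) = (ℝ ⊗[ℚ] K)ˣ`. -/
def toReal (K : Type) [Field K] [NumberField K] : Kˣ →* (ℝ ⊗[ℚ] K)ˣ :=
  Units.map (Algebra.TensorProduct.includeRight : K →ₐ[ℚ] ℝ ⊗[ℚ] K).toMonoidHom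

/-- The closure of `L ⊆ A(ℚ) = Kˣ` in `A(ℝ) = (ℝ ⊗[ℚ] K)ˣ`. -/
def realClosure (K : Type) [Field K] [NumberField K] (L : Subgroup Kˣ) :
    Subgroup (ℝ ⊗[ℚ] K)ˣ :=
  (L.map (toReal K)).topologicalClosure

/-- The identity component of a subgroup `H` of a topological group (with the topology that `H`
inherits), as a subgroup of the big group. -/
def identityComponent {G : Type} [Group G] [TopologicalSpace G] [IsTopologicalGroup G]
    (H : Subgroup G) : Subgroup G :=
  (Subgroup.connectedComponentOfOne H).map H.subtype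

/-- The real part of the expected answer for `A = R_{K/ℚ}(𝔾_m)`: for every finitely generated
`L ⊆ A(ℚ) = Kˣ`, the identity component of the closure of `L` in `A(ℝ)` is contained with finite
index in `B(ℝ)` for some algebraic subgroup `B` of `A` defined over `ℚ`. -/
def RealExpected (K : Type) [Field K] [NumberField K] : Prop :=
  ∀ L : Subgroup Kˣ, L.FG → ∃ B : AlgSubgroup K,
    identityComponent (realClosure K L) ≤ B.points ℝ ∧
      (identityComponent (realClosure K L)).relIndex (B.points ℝ) ≠ 0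

end

end Pool.Agent.H421R2
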