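import Mathlib
import Pool.Agent.H421R2.TorusDefs
import Pool.Agent.H421R2.LineLemma

/-!
# The real points of `R_{K/ℚ}(𝔾_m)`: evaluation at embeddings, exponential map
-/

open scoped TensorProduct NumberField
open Filter Topology NumberField

namespace Pool.Agent.H421R2

noncomputable section

variable (K : Type) [Field K] [NumberField K]

/-- The evaluation `ℝ ⊗ K → ℂ` attached to a complex embedding of `K`. -/
def ev (σ : K →+* ℂ) : ℝ ⊗[ℚ] K →ₐ[ℝ] ℂ :=
  Algebra.TensorProduct.lift (Algebra.ofId ℝ ℂ) (σ.toRatAlgHom : K →ₐ[ℚ] ℂ)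
    (fun _ _ => Commute.all _ _)

lemma ev_tmul (σ : K →+* ℂ) (r : ℝ) (x : K) : ev K σ (r ⊗ₜ x) = (r : ℂ) * σ x := by
  simp [ev]

/-- all evaluations together -/
def evAll : ℝ ⊗[ℚ] K →ₗ[ℝ] ((K →+* ℂ) → ℂ) :=
  LinearMap.pi fun σ => (ev K σ).toLinearMap

@[simp] lemma evAll_apply (u : ℝ ⊗[ℚ] K) (σ : K →+* ℂ) : evAll K u σ = ev K σ u := rfl

/-- The real coordinates, viewed as complex numbers, are the coordinates of `evAll u` in the
complex lattice basis. -/
lemma evAll_eq_sum (u : ℝ ⊗[ℚ] K) :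
    evAll K u = ∑ i, (coord K ℝ u i : ℂ) • canonicalEmbedding.latticeBasis K i := by
  classical
  have h := (Algebra.TensorProduct.basis ℝ (integralBasis K)).sum_repr u
  conv_lhs => rw [← h]
  rw [map_sum]
  refine Finset.sum_congr rfl fun i _ => ?_
  rw [map_smul]
  funext σ
  rw [canonicalEmbedding.latticeBasis_apply]
  simp only [Pi.smul_apply, evAll_apply, Algebra.TensorProduct.basis_apply, ev_tmul,
    canonicalEmbedding.apply_at, coord]
  simp

lemma repr_evAll (u : ℝ ⊗[ℚ] K) (i) :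
    (canonicalEmbedding.latticeBasis K).repr (evAll K u) i = (coord K ℝ u i : ℂ) := by
  rw [evAll_eq_sum]
  exact congrFun ((canonicalEmbedding.latticeBasis K).repr_sum_self
    (fun i => (coord K ℝ u i : ℂ))) i

lemma evAll_injective : Function.Injective (evAll K) := by
  rw [injective_iff_map_eq_zero]
  intro u hu
  have : (Algebra.TensorProduct.basis ℝ (integralBasis K)).repr u = 0 := by
    ext i
    have h := repr_evAll K u i
    rw [hu] at h
    simpa [coord] using h.symm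
  simpa using this

lemma evAll_surj (z : (K →+* ℂ) → ℂ)
    (hz : ∀ σ, z (ComplexEmbedding.conjugate σ) = (starRingEnd ℂ) (z σ)) :
    ∃ u : ℝ ⊗[ℚ] K, evAll K u = z := by
  classical
  set B := canonicalEmbedding.latticeBasis K with hB
  set c := fun i => B.repr z i with hc
  have hBc : ∀ i σ, (starRingEnd ℂ) (B i (ComplexEmbedding.conjugate σ)) = B i σ := by
    intro i σ
    rw [hB, canonicalEmbedding.latticeBasis_apply]
    simp
  have hsum : z = ∑ i, c i • B i := (B.sum_repr z).symm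
  have hsum2 : z = ∑ i, (starRingEnd ℂ) (c i) • B i := by
    funext σ
    have h1 : z σ = (starRingEnd ℂ) (z (ComplexEmbedding.conjugate σ)) := by
      rw [hz]; simp
    rw [h1, hsum]
    simp only [Finset.sum_apply, Pi.smul_apply, smul_eq_mul, map_sum, map_mul, hBc]
  have hcc : ∀ i, (starRingEnd ℂ) (c i) = c i := by
    intro i
    have h2 : B.repr z i = (starRingEnd ℂ) (c i) := by
      conv_lhs => rw [hsum2]
      exact congrFun (B.repr_sum_self (fun i => (starRingEnd ℂ) (c i))) i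
    exact h2.symm
  refine ⟨∑ i, (c i).re • (Algebra.TensorProduct.basis ℝ (integralBasis K) i), ?_⟩
  rw [map_sum]
  rw [hsum]
  refine Finset.sum_congr rfl fun i _ => ?_
  rw [map_smul]
  have hre : ((c i).re : ℂ) = c i := by
    have := hcc i
    exact Complex.conj_eq_iff_re.mp this
  funext σ
  simp only [Pi.smul_apply, evAll_apply, Algebra.TensorProduct.basis_apply, ev_tmul]
  rw [← hre, hB, canonicalEmbedding.latticeBasis_apply]
  simp

lemma ev_conj (σ : K →+* ℂ) (u : ℝ ⊗[ℚ] K) :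
    ev K (ComplexEmbedding.conjugate σ) u = (starRingEnd ℂ) (ev K σ u) := by
  induction u using TensorProduct.induction_on with
  | zero => simp
  | tmul r x => simp [ev_tmul]
  | add a b ha hb => simp [ha, hb]

lemma evAll_conj (u : ℝ ⊗[ℚ] K) (σ : K →+* ℂ) :
    evAll K u (ComplexEmbedding.conjugate σ) = (starRingEnd ℂ) (evAll K u σ) :=
  ev_conj K σ u

lemma continuous_evAll : Continuous (evAll K) :=
  IsModuleTopology.continuous_of_linearMap (evAll K)

lemma continuous_ev (σ : K →+* ℂ) : Continuous (ev K σ) :=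
  (continuous_apply σ).comp (continuous_evAll K)

instance instT2 : T2Space (ℝ ⊗[ℚ] K) :=
  T2Space.of_injective_continuous (evAll_injective K) (continuous_evAll K)

lemma isClosedEmbedding_evAll : IsClosedEmbedding (evAll K) := by
  have : ContinuousSMul ℝ (ℝ ⊗[ℚ] K) := IsModuleTopology.toContinuousSMul ℝ _
  exact LinearMap.isClosedEmbedding_of_injective (LinearMap.ker_eq_bot.mpr (evAll_injective K))

/-- exponential map on `ℝ ⊗ K` -/
def expK (X : ℝ ⊗[ℚ] K) : ℝ ⊗[ℚ] K :=
  Classical.choose (evAll_surj K (fun σ => Complex.exp (evAll K X σ)) (fun σ => by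
    rw [evAll_conj, Complex.exp_conj]))

lemma ev_expK (X : ℝ ⊗[ℚ] K) (σ : K →+* ℂ) :
    ev K σ (expK K X) = Complex.exp (ev K σ X) :=
  congrFun (Classical.choose_spec (evAll_surj K (fun σ => Complex.exp (evAll K X σ)) (fun σ => by
    rw [evAll_conj, Complex.exp_conj]))) σ

lemma ext_ev {u v : ℝ ⊗[ℚ] K} (h : ∀ σ, ev K σ u = ev K σ v) : u = v :=
  evAll_injective K (funext h)

lemma expK_mul_neg (X : ℝ ⊗[ℚ] K) : expK K X * expK K (-X) = 1 := by
  apply ext_ev
  intro σ
  rw [map_mul, ev_expK, ev_expK, ← Complex.exp_add, map_neg, add_neg_cancel, Complex.exp_zero,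
    map_one]

/-- exponential map `ℝ ⊗ K → (ℝ ⊗ K)ˣ` -/
def expU (X : ℝ ⊗[ℚ] K) : (ℝ ⊗[ℚ] K)ˣ :=
  ⟨expK K X, expK K (-X), expK_mul_neg K X, by rw [mul_comm]; exact expK_mul_neg K X⟩

lemma ev_expU (X : ℝ ⊗[ℚ] K) (σ : K →+* ℂ) :
    ev K σ (expU K X : ℝ ⊗[ℚ] K) = Complex.exp (ev K σ X) := ev_expK K X σ

lemma units_ext_ev {u v : (ℝ ⊗[ℚ] K)ˣ} (h : ∀ σ, ev K σ (u : ℝ ⊗[ℚ] K) = ev K σ v) : u = v :=
  Units.ext (ext_ev K h)

lemma expU_add (X Y : ℝ ⊗[ℚ] K) : expU K (X + Y) = expU K X * expU K Y := by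
  apply units_ext_ev
  intro σ
  rw [Units.val_mul, map_mul, ev_expU, ev_expU, ev_expU, map_add, Complex.exp_add]

lemma expU_zero : expU K 0 = 1 := by
  apply units_ext_ev
  intro σ
  rw [ev_expU, map_zero, Complex.exp_zero, Units.val_one, map_one]

lemma expU_neg (X : ℝ ⊗[ℚ] K) : expU K (-X) = (expU K X)⁻¹ := by
  rw [eq_inv_iff_mul_eq_one, ← expU_add, neg_add_cancel, expU_zero]

lemma continuous_expK : Continuous (expK K) := by
  rw [(isClosedEmbedding_evAll K).isInducing.continuous_iff]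
  refine continuous_pi fun σ => ?_
  have : (fun X => (evAll K ∘ expK K) X σ) = fun X => Complex.exp (ev K σ X) := by
    funext X; exact ev_expK K X σ
  rw [this]
  exact Complex.continuous_exp.comp (continuous_ev K σ)

lemma continuous_expU : Continuous (expU K) := by
  rw [Units.continuous_iff]
  exact ⟨continuous_expK K, (continuous_expK K).comp continuous_neg⟩

/-- the archimedean logarithmic vector of a real point -/
def logAbs (u : (ℝ ⊗[ℚ] K)ˣ) (σ : K →+* ℂ) : ℝ := Real.log ‖ev K σ (u : ℝ ⊗[ℚ] K)‖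

lemma ev_ne_zero (u : (ℝ ⊗[ℚ] K)ˣ) (σ : K →+* ℂ) : ev K σ (u : ℝ ⊗[ℚ] K) ≠ 0 :=
  (u.isUnit.map (ev K σ)).ne_zero

lemma logAbs_mul (u v : (ℝ ⊗[ℚ] K)ˣ) : logAbs K (u * v) = logAbs K u + logAbs K v := by
  funext σ
  simp only [logAbs, Units.val_mul, map_mul, norm_mul, Pi.add_apply]
  rw [Real.log_mul]
  · simpa using ev_ne_zero K u σ
  · simpa using ev_ne_zero K v σ

lemma logAbs_one : logAbs K 1 = 0 := by
  funext σ
  simp [logAbs]

lemma logAbs_pow (u : (ℝ ⊗[ℚ] K)ˣ) (n : ℕ) : logAbs K (u ^ n) = n • logAbs K u := by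
  induction n with
  | zero => simp [logAbs_one]
  | succ n ih => rw [pow_succ, logAbs_mul, ih, succ_nsmul]

lemma logAbs_inv (u : (ℝ ⊗[ℚ] K)ˣ) : logAbs K u⁻¹ = - logAbs K u := by
  have h := logAbs_mul K u u⁻¹
  rw [mul_inv_cancel, logAbs_one] at h
  exact eq_neg_of_add_eq_zero_right h.symm

lemma logAbs_zpow (u : (ℝ ⊗[ℚ] K)ˣ) (n : ℤ) : logAbs K (u ^ n) = n • logAbs K u := by
  cases n with
  | ofNat n => simpa using logAbs_pow K u n
  | negSucc n => rw [zpow_negSucc, logAbs_inv, logAbs_pow, negSucc_zsmul]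

lemma continuous_logAbs : Continuous (logAbs K) := by
  refine continuous_pi fun σ => ?_
  unfold logAbs
  refine Continuous.log (continuous_norm.comp ((continuous_ev K σ).comp Units.continuous_val)) ?_
  intro u
  simpa using ev_ne_zero K u σ

lemma logAbs_expU (X : ℝ ⊗[ℚ] K) (σ : K →+* ℂ) : logAbs K (expU K X) σ = (ev K σ X).re := by
  rw [logAbs, ev_expU, Complex.norm_exp, Real.log_exp]

lemma logAbs_conj (u : (ℝ ⊗[ℚ] K)ˣ) (σ : K →+* ℂ) :
    logAbs K u (ComplexEmbedding.conjugate σ) = logAbs K u σ := by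
  rw [logAbs, ev_conj, Complex.norm_conj, logAbs]

/-- The square of every unit has a logarithm with bounded imaginary parts. -/
lemma exists_log_sq (u : (ℝ ⊗[ℚ] K)ˣ) : ∃ X : ℝ ⊗[ℚ] K, expU K X = u ^ 2 ∧
    ∀ σ, |(ev K σ X).im| ≤ 2 * Real.pi := by
  classical
  let w : (K →+* ℂ) → ℂ := fun σ => ev K σ (u : ℝ ⊗[ℚ] K)
  have hw : ∀ σ, w σ ≠ 0 := fun σ => ev_ne_zero K u σ
  have hwc : ∀ σ, w (ComplexEmbedding.conjugate σ) = (starRingEnd ℂ) (w σ) := fun σ =>
    ev_conj K σ _
  let θ : ℂ → ℝ := fun z => if z.arg = Real.pi then 0 else 2 * z.arg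
  have hθ : ∀ z, θ ((starRingEnd ℂ) z) = - θ z := by
    intro z
    simp only [θ, Complex.arg_conj]
    by_cases h : z.arg = Real.pi
    · simp [h]
    · have : - z.arg ≠ Real.pi := by
        have := Complex.neg_pi_lt_arg z
        linarith
      simp [h, this]
  have hθ2 : ∀ z : ℂ, Complex.exp ((θ z : ℂ) * Complex.I) = Complex.exp (2 * (z.arg * Complex.I)) := by
    intro z
    simp only [θ]
    split_ifs with h
    · rw [h]
      have : (2 : ℂ) * ((Real.pi : ℂ) * Complex.I) = 2 * Real.pi * Complex.I := by ring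
      rw [this, Complex.exp_two_pi_mul_I]; simp
    · congr 1; push_cast; ring
  have hθb : ∀ z : ℂ, |θ z| ≤ 2 * Real.pi := by
    intro z
    simp only [θ]
    split_ifs with h
    · simp [Real.pi_pos.le]
    · rw [abs_mul, abs_two]
      exact mul_le_mul_of_nonneg_left (Complex.abs_arg_le_pi z) (by norm_num)
  obtain ⟨X, hX⟩ := evAll_surj K
    (fun σ => ((2 * Real.log ‖w σ‖ : ℝ) : ℂ) + ((θ (w σ) : ℝ) : ℂ) * Complex.I) (by
      intro σ
      simp only [hwc, hθ, Complex.norm_conj, map_add, map_mul, Complex.conj_ofReal, Complex.conj_I]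
      push_cast
      ring)
  have hXσ : ∀ σ, ev K σ X = ((2 * Real.log ‖w σ‖ : ℝ) : ℂ) + ((θ (w σ) : ℝ) : ℂ) * Complex.I :=
    fun σ => congrFun hX σ
  refine ⟨X, ?_, ?_⟩
  · apply units_ext_ev
    intro σ
    rw [ev_expU, hXσ, Complex.exp_add, hθ2, ← Complex.exp_add, Units.val_pow_eq_pow_val, map_pow]
    have h1 : Complex.log (w σ) = (Real.log ‖w σ‖ : ℂ) + (w σ).arg * Complex.I := rfl
    have h2 : ((2 * Real.log ‖w σ‖ : ℝ) : ℂ) + 2 * ((w σ).arg * Complex.I) =
        (2 : ℕ) * Complex.log (w σ) := by rw [h1]; push_cast; ring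
    rw [h2, Complex.exp_nat_mul, Complex.exp_log (hw σ)]
  · intro σ
    rw [hXσ]
    simpa using hθb (w σ)

end

end Pool.Agent.H421R2
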