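import Mathlib
import Pool.Agent.H421R2.RealPoints

/-!
# A general criterion for the failure of the real part of the expected answer
-/

open scoped TensorProduct NumberField
open Filter Topology NumberField

namespace Pool.Agent.H421R2

noncomputable section

/-- Dedekind's lemma, in the form: if a polynomial in finitely many characters vanishes on a
subgroup `B`, then it vanishes at each point `u` at which all coincidences between monomials
on `B` persist. -/
lemma eval_eq_zero_of_coincidences {G E : Type*} [CommGroup G] [Fintype E] (B : Subgroup G)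
    (w : E → (G →* ℂ)) (F : MvPolynomial E ℂ)
    (hF : ∀ g ∈ B, MvPolynomial.eval (fun σ => w σ g) F = 0) (u : G)
    (hu : ∀ m m' : E →₀ ℕ, (∀ g ∈ B, ∏ σ, w σ g ^ m σ = ∏ σ, w σ g ^ m' σ) →
      ∏ σ, w σ u ^ m σ = ∏ σ, w σ u ^ m' σ) :
    MvPolynomial.eval (fun σ => w σ u) F = 0 := by
  classical
  let χ : (E →₀ ℕ) → (B →* ℂ) := fun m =>
    { toFun := fun g => ∏ σ, w σ (g : G) ^ m σ
      map_one' := by simp
      map_mul' := fun a b => by simp [mul_pow, Finset.prod_mul_distrib] }
  have hli := linearIndependent_monoidHom B ℂ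
  rw [linearIndependent_iff'] at hli
  have hsum : ∑ c ∈ F.support.image χ,
      (∑ m ∈ F.support with χ m = c, F.coeff m) • (c : B → ℂ) = 0 := by
    funext g
    have h := hF g.1 g.2
    rw [MvPolynomial.eval_eq'] at h
    rw [Finset.sum_apply]
    simp only [Pi.smul_apply, smul_eq_mul, Pi.zero_apply, Finset.sum_mul]
    rw [← h]
    rw [← Finset.sum_fiberwise_of_maps_to (s := F.support) (t := F.support.image χ) (g := χ)
      (fun m hm => Finset.mem_image_of_mem _ hm)]
    refine Finset.sum_congr rfl fun c _ => ?_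
    refine Finset.sum_congr rfl fun m hm => ?_
    rw [← (Finset.mem_filter.mp hm).2]
    rfl
  have hcoef := hli (F.support.image χ) (fun c => ∑ m ∈ F.support with χ m = c, F.coeff m) hsum
  rw [MvPolynomial.eval_eq']
  rw [← Finset.sum_fiberwise_of_maps_to (s := F.support) (t := F.support.image χ) (g := χ)
      (fun m hm => Finset.mem_image_of_mem _ hm)]
  refine Finset.sum_eq_zero fun c hc => ?_
  obtain ⟨m₀, hm₀, rfl⟩ := Finset.mem_image.mp hc
  have h0 := hcoef _ hc
  have : ∀ m ∈ F.support.filter (fun m => χ m = χ m₀),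
      F.coeff m * ∏ i, w i u ^ m i = F.coeff m * ∏ i, w i u ^ m₀ i := by
    intro m hm
    rw [hu m m₀ (fun g hg => ?_)]
    exact congrArg (fun f : B →* ℂ => f ⟨g, hg⟩) (Finset.mem_filter.mp hm).2
  rw [Finset.sum_congr rfl this, ← Finset.sum_mul, h0, zero_mul]

variable (K : Type) [Field K] [NumberField K]

/-- A rational polynomial in the real coordinates is a complex polynomial in the evaluations. -/
lemma exists_poly (f : MvPolynomial (Module.Free.ChooseBasisIndex ℤ (𝓞 K)) ℚ) :
    ∃ F : MvPolynomial (K →+* ℂ) ℂ, ∀ u : ℝ ⊗[ℚ] K,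
      ((MvPolynomial.aeval (coord K ℝ u) f : ℝ) : ℂ) =
        MvPolynomial.eval (fun σ => ev K σ u) F := by
  classical
  set B := canonicalEmbedding.latticeBasis K
  refine ⟨MvPolynomial.aeval (fun i => ∑ σ : K →+* ℂ,
    (MvPolynomial.C (B.repr (Pi.single σ 1) i) * MvPolynomial.X σ :
      MvPolynomial (K →+* ℂ) ℂ)) f, fun u => ?_⟩
  have h1 : ((MvPolynomial.aeval (coord K ℝ u) f : ℝ) : ℂ) =
      MvPolynomial.aeval (fun i => (coord K ℝ u i : ℂ)) f :=
    MvPolynomial.comp_aeval_apply (f := coord K ℝ u) (Complex.ofRealHom.toRatAlgHom) f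
  have h2 : MvPolynomial.eval (fun σ => ev K σ u) (MvPolynomial.aeval (fun i => ∑ σ : K →+* ℂ,
      (MvPolynomial.C (B.repr (Pi.single σ 1) i) * MvPolynomial.X σ :
      MvPolynomial (K →+* ℂ) ℂ)) f) =
      MvPolynomial.aeval (fun i => MvPolynomial.eval (fun σ => ev K σ u) (∑ σ : K →+* ℂ,
      (MvPolynomial.C (B.repr (Pi.single σ 1) i) * MvPolynomial.X σ :
      MvPolynomial (K →+* ℂ) ℂ))) f :=
    MvPolynomial.comp_aeval_apply (f := _)
      ((MvPolynomial.eval (fun σ => ev K σ u)).toRatAlgHom) f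
  rw [h1, h2]
  congr 2
  funext i
  rw [← repr_evAll]
  have h3 : evAll K u = ∑ σ, (ev K σ u) • (Pi.single σ (1 : ℂ) : (K →+* ℂ) → ℂ) := by
    funext τ
    rw [Finset.sum_apply]
    simp [Pi.single_apply]
  rw [h3, map_sum, Finsupp.finsetSum_apply, map_sum]
  refine Finset.sum_congr rfl fun σ _ => ?_
  simp [B, mul_comm]

/-- A one-parameter subgroup in the closure of `L`, not contained in the maximal compact
subgroup. -/
lemma exists_one_param (L : Subgroup Kˣ) (g : ℕ → Kˣ) (hg : ∀ n, g n ∈ L) (C : ℝ)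
    (hC : ∀ n σ, |logAbs K (toReal K (g n)) σ| ≤ C)
    (hinj : Function.Injective (fun n => logAbs K (toReal K (g n)))) :
    ∃ X : ℝ ⊗[ℚ] K, (∃ σ, (ev K σ X).re ≠ 0) ∧ ∀ t : ℝ, expU K (t • X) ∈ realClosure K L := by
  classical
  set H := realClosure K L with hH
  have hHc : IsClosed (H : Set (ℝ ⊗[ℚ] K)ˣ) := Subgroup.isClosed_topologicalClosure _
  let H' : AddSubgroup (ℝ ⊗[ℚ] K) :=
    { carrier := {X | expU K X ∈ H}
      add_mem' := fun {a b} ha hb => by
        simp only [Set.mem_ofPred_eq, expU_add] at *; exact H.mul_mem ha hb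
      zero_mem' := by simp only [Set.mem_ofPred_eq, expU_zero]; exact H.one_mem
      neg_mem' := fun {a} ha => by
        simp only [Set.mem_ofPred_eq, expU_neg] at *; exact H.inv_mem ha }
  have hH'c : IsClosed (H' : Set (ℝ ⊗[ℚ] K)) := hHc.preimage (continuous_expU K)
  let H2 : AddSubgroup ((K →+* ℂ) → ℂ) := H'.map (evAll K).toAddMonoidHom
  have hH2c : IsClosed (H2 : Set ((K →+* ℂ) → ℂ)) := by
    have : (H2 : Set ((K →+* ℂ) → ℂ)) = evAll K '' (H' : Set (ℝ ⊗[ℚ] K)) := rfl
    rw [this]
    exact (isClosedEmbedding_evAll K).isClosedMap _ hH'c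
  let ρ : ((K →+* ℂ) → ℂ) →ₗ[ℝ] ((K →+* ℂ) → ℝ) :=
    LinearMap.pi fun σ => Complex.reLm ∘ₗ LinearMap.proj σ
  have hρ : ∀ z σ, ρ z σ = (z σ).re := fun z σ => rfl
  choose X hX hXb using fun n => exists_log_sq K (toReal K (g n))
  have hmem : ∀ n, toReal K (g n) ∈ H := fun n =>
    Subgroup.le_topologicalClosure _ (Subgroup.mem_map_of_mem _ (hg n))
  have hρX : ∀ n, ρ (evAll K (X n)) = (2 : ℕ) • logAbs K (toReal K (g n)) := by
    intro n
    rw [← logAbs_pow, ← hX n]
    funext σ
    rw [hρ, logAbs_expU]; rfl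
  obtain ⟨v, hv0, hv⟩ := exists_line_map_ne_zero H2 hH2c ρ (fun n => evAll K (X n))
    (fun n => AddSubgroup.mem_map_of_mem _ (by
      change expU K (X n) ∈ H
      rw [hX n]; exact H.pow_mem (hmem n) 2))
    (by
      intro a b hab
      apply hinj
      simp only [hρX] at hab
      funext σ
      have := congrFun hab σ
      simp only [Pi.smul_apply, nsmul_eq_mul] at this
      have h2 : ((2 : ℕ) : ℝ) ≠ 0 := by norm_num
      exact mul_left_cancel₀ h2 this)
    (2 * C + 2 * Real.pi) (by
      intro n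
      have hC0 : 0 ≤ C := by
        obtain ⟨σ⟩ : Nonempty (K →+* ℂ) := inferInstance
        exact (abs_nonneg _).trans (hC 0 σ)
      rw [pi_norm_le_iff_of_nonneg (by positivity)]
      intro σ
      refine (Complex.norm_le_abs_re_add_abs_im _).trans ?_
      have h1 : (evAll K (X n) σ).re = 2 * logAbs K (toReal K (g n)) σ := by
        have := congrFun (hρX n) σ
        rw [hρ] at this
        simpa using this
      have h2 := hXb n σ
      have h3 := hC n σ
      rw [h1, abs_mul, abs_two]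
      simp only [evAll_apply]
      linarith)
  obtain ⟨Y, hY, rfl⟩ : ∃ Y ∈ H', evAll K Y = v := by
    have := hv 1
    rw [one_smul] at this
    exact this
  refine ⟨Y, ?_, ?_⟩
  · by_contra hcon
    push Not at hcon
    apply hv0
    funext σ
    exact hcon σ
  · intro t
    have h := hv t
    rw [← map_smul] at h
    obtain ⟨Z, hZ, hZY⟩ := h
    have : Z = t • Y := evAll_injective K hZY
    rw [← this]
    exact hZ

lemma one_param_mem_identityComponent (L : Subgroup Kˣ) (X : ℝ ⊗[ℚ] K)
    (hX : ∀ t : ℝ, expU K (t • X) ∈ realClosure K L) :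
    expU K X ∈ identityComponent (realClosure K L) := by
  have : ContinuousSMul ℝ (ℝ ⊗[ℚ] K) := IsModuleTopology.toContinuousSMul ℝ _
  let γ : ℝ → realClosure K L := fun t => ⟨expU K (t • X), hX t⟩
  have hγ : Continuous γ :=
    Continuous.subtype_mk ((continuous_expU K).comp (continuous_id.smul continuous_const)) _
  have hpre : IsPreconnected (Set.range γ) := by
    rw [← Set.image_univ]
    exact isPreconnected_univ.image γ hγ.continuousOn
  have h1 : (1 : realClosure K L) ∈ Set.range γ := ⟨0, by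
    apply Subtype.ext
    simp [γ, expU_zero]⟩
  have h2 := hpre.subset_connectedComponent h1 ⟨1, rfl⟩
  exact ⟨γ 1, h2, by simp [γ]⟩

lemma logAbs_mem_of_mem_realClosure (L : Subgroup Kˣ) (S : Submodule ℝ ((K →+* ℂ) → ℝ))
    (hLS : ∀ g ∈ L, logAbs K (toReal K g) ∈ S) (u : (ℝ ⊗[ℚ] K)ˣ) (hu : u ∈ realClosure K L) :
    logAbs K u ∈ S := by
  have hS : IsClosed (S : Set ((K →+* ℂ) → ℝ)) := S.closed_of_finiteDimensional
  have h1 : IsClosed {u | logAbs K u ∈ S} := hS.preimage (continuous_logAbs K)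
  have h2 : ((L.map (toReal K) : Subgroup (ℝ ⊗[ℚ] K)ˣ) : Set (ℝ ⊗[ℚ] K)ˣ) ⊆
      {u | logAbs K u ∈ S} := by
    rintro _ ⟨g, hg, rfl⟩
    exact hLS g hg
  exact closure_minimal h2 h1 hu

/-- **General criterion.** Let `L` be a subgroup of `Kˣ` whose archimedean logarithmic vectors
lie in a real subspace `S` without nonzero rational vectors. If the logarithmic vectors of `L`
are not discrete, then the identity component of the closure of `L` in the real points is not
contained with finite index in the group of real points of an algebraic subgroup. -/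
theorem general_criterion (L : Subgroup Kˣ) (S : Submodule ℝ ((K →+* ℂ) → ℝ))
    (hLS : ∀ g ∈ L, logAbs K (toReal K g) ∈ S)
    (hS : ∀ s : (K →+* ℂ) → ℚ, (fun σ => (s σ : ℝ)) ∈ S → s = 0)
    (g : ℕ → Kˣ) (hg : ∀ n, g n ∈ L) (C : ℝ)
    (hC : ∀ n σ, |logAbs K (toReal K (g n)) σ| ≤ C)
    (hinj : Function.Injective (fun n => logAbs K (toReal K (g n))))
    (B : AlgSubgroup K) (h1 : identityComponent (realClosure K L) ≤ B.points ℝ)
    (h2 : (identityComponent (realClosure K L)).relIndex (B.points ℝ) ≠ 0) : False := by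
  classical
  obtain ⟨X, ⟨σ₀, hσ₀⟩, hX⟩ := exists_one_param K L g hg C hC hinj
  have hXB : expU K X ∈ B.points ℝ := h1 (one_param_mem_identityComponent K L X hX)
  -- a `ℚ`-linear functional on `ℝ`
  obtain ⟨φ, hφ⟩ : ∃ φ : Module.Dual ℚ ℝ, φ (ev K σ₀ X).re ≠ 0 := by
    by_contra hcon
    push Not at hcon
    exact hσ₀ ((Module.forall_dual_apply_eq_zero_iff ℚ _).mp hcon)
  set s : (K →+* ℂ) → ℚ := fun σ => φ (ev K σ X).re with hs
  obtain ⟨Y, hY⟩ := evAll_surj K (fun σ => ((s σ : ℝ) : ℂ)) (fun σ => by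
    simp only [hs, ev_conj, Complex.conj_re, Complex.conj_ofReal])
  have hYσ : ∀ σ, ev K σ Y = ((s σ : ℝ) : ℂ) := fun σ => congrFun hY σ
  -- the evaluations as characters
  let w : (K →+* ℂ) → ((ℝ ⊗[ℚ] K)ˣ →* ℂ) := fun σ =>
    ((ev K σ : ℝ ⊗[ℚ] K →* ℂ)).comp (Units.coeHom (ℝ ⊗[ℚ] K))
  have hw : ∀ σ u, w σ u = ev K σ (u : ℝ ⊗[ℚ] K) := fun σ u => rfl
  have hYB : expU K Y ∈ B.points ℝ := by
    rw [B.mem_points]
    intro f hf
    obtain ⟨F, hF⟩ := exists_poly K f
    have hz : MvPolynomial.eval (fun σ => w σ (expU K Y)) F = 0 := by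
      refine eval_eq_zero_of_coincidences (B.points ℝ) w F ?_ (expU K Y) ?_
      · intro u hu
        simp only [hw]
        rw [← hF, (B.mem_points ℝ u).mp hu f hf]
        simp
      · intro m m' hmm
        have h3 := hmm _ hXB
        simp only [hw, ev_expU] at h3 ⊢
        simp only [← Complex.exp_nat_mul, ← Complex.exp_sum] at h3 ⊢
        have h4 := congrArg (fun z : ℂ => Real.log ‖z‖) h3
        simp only [Complex.norm_exp, Real.log_exp, Complex.re_sum] at h4
        have h5 : ∀ (a : ℕ) (z : ℂ), ((a : ℂ) * z).re = a * z.re := by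
          intro a z; simp
        simp only [h5] at h4
        have h6 := congrArg φ h4
        rw [map_sum, map_sum] at h6
        have h7 : ∀ (a : ℕ) (x : ℝ), φ ((a : ℝ) * x) = a * φ x := by
          intro a x
          rw [← nsmul_eq_mul, map_nsmul, nsmul_eq_mul]
        simp only [h7] at h6
        have h8 : ∀ (m : (K →+* ℂ) →₀ ℕ), ∑ x, (m x : ℂ) * ev K x Y =
            ((∑ x, (m x : ℚ) * φ (ev K x X).re : ℚ) : ℂ) := by
          intro m
          push_cast
          refine Finset.sum_congr rfl fun x _ => ?_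
          rw [hYσ]
          simp [hs]
        rw [h8, h8, h6]
    simp only [hw] at hz
    rw [← hF] at hz
    exact_mod_cast hz
  obtain ⟨n, hn0, -, hn⟩ := Subgroup.exists_pow_mem_of_relIndex_ne_zero h2 hYB
  have hid : identityComponent (realClosure K L) ≤ realClosure K L := by
    rintro _ ⟨a, -, rfl⟩
    exact a.2
  have h9 : logAbs K (expU K Y ^ n) ∈ S :=
    logAbs_mem_of_mem_realClosure K L S hLS _ (hid hn.1)
  rw [logAbs_pow] at h9
  have h10 : logAbs K (expU K Y) ∈ S := by
    have : logAbs K (expU K Y) = (n : ℝ)⁻¹ • (n • logAbs K (expU K Y)) := by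
      have hn' : (n : ℝ) ≠ 0 := by exact_mod_cast hn0.ne'
      rw [← Nat.cast_smul_eq_nsmul ℝ, smul_smul, inv_mul_cancel₀ hn', one_smul]
    rw [this]
    exact S.smul_mem _ h9
  have h11 : logAbs K (expU K Y) = fun σ => (s σ : ℝ) := by
    funext σ
    rw [logAbs_expU, hYσ]
    simp
  rw [h11] at h10
  have h12 := hS s h10
  exact hφ (congrFun h12 σ₀)

end

end Pool.Agent.H421R2
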