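import Mathlib
import Pool.Agent.H421R2.RealExampleA
import Pool.Agent.H421R2.RealGeneral

/-!
# The counterexample to the real part of the expected answer
-/

open scoped TensorProduct NumberField
open Polynomial NumberField

namespace Pool.Agent.H421R2

noncomputable section

/-- A number field containing three roots of the sextic with pairwise different squares. -/
lemma exists_field : ∃ (K : Type) (_ : Field K) (_ : NumberField K) (θ : Fin 3 → K),
    (∀ i, θ i ^ 6 - 4 * θ i ^ 2 - 2 = 0) ∧ ∀ i j, i ≠ j → θ i ^ 2 ≠ θ j ^ 2 := by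
  obtain ⟨t, ht1, ht2, ht⟩ := exists_real_root
  obtain ⟨s, hs1, hs2, hs⟩ := exists_s2
  obtain ⟨r, hr1, hr2, hr⟩ := exists_s3
  let z : Fin 3 → ℂ := ![(t : ℂ), (s : ℂ) * Complex.I, (r : ℂ) * Complex.I]
  have hI2 : Complex.I ^ 2 = -1 := Complex.I_sq
  have hI6 : Complex.I ^ 6 = -1 := by
    rw [show 6 = 2 * 3 from rfl, pow_mul, hI2]; norm_num
  have hz : ∀ i, z i ^ 6 - 4 * z i ^ 2 - 2 = 0 := by
    intro i
    fin_cases i
    · change (t : ℂ) ^ 6 - 4 * (t : ℂ) ^ 2 - 2 = 0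
      exact_mod_cast ht
    · change ((s : ℂ) * Complex.I) ^ 6 - 4 * ((s : ℂ) * Complex.I) ^ 2 - 2 = 0
      have hs' : (s : ℂ) ^ 6 - 4 * (s : ℂ) ^ 2 + 2 = 0 := by exact_mod_cast hs
      rw [mul_pow, mul_pow, hI2, hI6]
      linear_combination -hs'
    · change ((r : ℂ) * Complex.I) ^ 6 - 4 * ((r : ℂ) * Complex.I) ^ 2 - 2 = 0
      have hr' : (r : ℂ) ^ 6 - 4 * (r : ℂ) ^ 2 + 2 = 0 := by exact_mod_cast hr
      rw [mul_pow, mul_pow, hI2, hI6]
      linear_combination -hr'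
  have hz2 : ∀ i, z i ^ 2 = ((![t ^ 2, - s ^ 2, - r ^ 2] i : ℝ) : ℂ) := by
    intro i
    fin_cases i
    · simp [z]
    · simp [z, mul_pow]
    · simp [z, mul_pow]
  have hne : ∀ i j, i ≠ j → z i ^ 2 ≠ z j ^ 2 := by
    intro i j hij h
    rw [hz2, hz2, Complex.ofReal_inj] at h
    have h1 : 0 < t ^ 2 := by positivity
    have h2 : 0 < s ^ 2 := by positivity
    have h3 : 0 < r ^ 2 := by positivity
    have h4 : s ^ 2 < r ^ 2 := by nlinarith
    fin_cases i <;> fin_cases j <;> simp at h hij <;> nlinarith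
  let F : IntermediateField ℚ ℂ := IntermediateField.adjoin ℚ (Set.range z)
  have hfin : FiniteDimensional ℚ F := by
    apply IntermediateField.finiteDimensional_adjoin
    rintro _ ⟨i, rfl⟩
    exact ⟨hQ, hQ_monic, by
      have := aeval_hQ (z i)
      rw [hz i] at this
      exact this⟩
  have hNF : NumberField F :=
    { to_charZero := inferInstance
      to_finiteDimensional := by
        convert hfin }
  refine ⟨F, inferInstance, hNF,
    fun i => ⟨z i, IntermediateField.subset_adjoin ℚ _ ⟨i, rfl⟩⟩, ?_, ?_⟩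
  · intro i
    apply Subtype.ext
    have := hz i
    push_cast
    exact this
  · intro i j hij h
    apply hne i j hij
    have := congrArg Subtype.val h
    simpa using this

section

variable {K : Type} [Field K] [NumberField K] (θ : Fin 3 → K)
  (hθ : ∀ i, θ i ^ 6 - 4 * θ i ^ 2 - 2 = 0) (hne : ∀ i j, i ≠ j → θ i ^ 2 ≠ θ j ^ 2)
  (t : ℝ) (ht1 : 7 / 5 < t) (ht2 : t < 3 / 2) (ht : t ^ 6 - 4 * t ^ 2 - 2 = 0)

include hθ in
lemma sextic_map (σ : K →+* ℂ) (i : Fin 3) : (σ (θ i)) ^ 6 - 4 * (σ (θ i)) ^ 2 - 2 = 0 := by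
  have := congrArg σ (hθ i)
  simpa [map_ofNat] using this

/-- the sign with which the `i`-th copy contributes at the embedding `σ` -/
def bb (σ : K →+* ℂ) (i : Fin 3) : ℝ :=
  if σ (θ i) = t then 1 else if σ (θ i) = -t then -1 else 0

include hθ ht1 ht2 ht in
lemma norm_quot (σ : K →+* ℂ) (i : Fin 3) (n : ℕ) (hn : 1 ≤ n) :
    Real.log ‖((n : ℂ) - σ (θ i)) / (n + σ (θ i))‖ = bb θ t σ i * pp t n := by
  have htn : t ≠ -t := by intro h; linarith
  have hn1 : (1 : ℝ) ≤ n := by exact_mod_cast hn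
  by_cases h1 : σ (θ i) = t
  · have : ‖((n : ℂ) - σ (θ i)) / (n + σ (θ i))‖ = |((n : ℝ) - t) / (n + t)| := by
      rw [h1, ← Real.norm_eq_abs, ← Complex.norm_real]
      push_cast
      rfl
    rw [this, bb, if_pos h1, one_mul, pp]
  · by_cases h2 : σ (θ i) = -t
    · have : ‖((n : ℂ) - σ (θ i)) / (n + σ (θ i))‖ = |((n : ℝ) - t) / (n + t)|⁻¹ := by
        rw [h2, ← Real.norm_eq_abs, ← Complex.norm_real, ← norm_inv]
        push_cast
        rw [inv_div]
        congr 1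
        ring
      rw [this, bb, if_neg h1, if_pos h2, pp, Real.log_inv]
      ring
    · rw [bb, if_neg h1, if_neg h2, zero_mul]
      have h3 : (σ (θ i)).re = 0 := by
        rcases root_cases t ht1 ht2 ht _ (sextic_map θ hθ σ i) with h | h | h
        · exact absurd h h1
        · exact absurd h h2
        · exact h
      have h4 : ‖(n : ℂ) - σ (θ i)‖ = ‖(n : ℂ) + σ (θ i)‖ := by
        rw [← Complex.norm_conj]
        congr 1
        apply Complex.ext
        · simp [h3]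
        · simp
      have h5 : (n : ℂ) + σ (θ i) ≠ 0 := by
        intro h
        have := congrArg Complex.re h
        simp [h3] at this
        omega
      rw [norm_div, h4, div_self (norm_ne_zero_iff.mpr h5), Real.log_one]

include hθ ht in
lemma exists_emb (i : Fin 3) : ∃ σ : K →+* ℂ, σ (θ i) = t := by
  have h := NumberField.Embeddings.range_eval_eq_rootSet_minpoly K ℂ (θ i)
  have h2 : (t : ℂ) ∈ (minpoly ℚ (θ i)).rootSet ℂ := by
    rw [minpoly_eq (θ i) (hθ i), mem_rootSet]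
    refine ⟨hQ_monic.ne_zero, ?_⟩
    rw [aeval_hQ]
    exact_mod_cast ht
  rw [← h] at h2
  obtain ⟨σ, hσ⟩ := h2
  exact ⟨σ, hσ⟩

include hne in
omit [NumberField K] in
lemma bb_of_eq (σ : K →+* ℂ) (i : Fin 3) (h : σ (θ i) = t) (j : Fin 3) :
    bb θ t σ j = if j = i then 1 else 0 := by
  by_cases hij : j = i
  · rw [if_pos hij, hij, bb, if_pos h]
  · rw [if_neg hij]
    have h1 : σ (θ j) ^ 2 ≠ (t : ℂ) ^ 2 := by
      rw [← h, ← map_pow, ← map_pow]
      intro h'
      exact hne j i hij (σ.injective h')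
    have h2 : σ (θ j) ≠ t := by intro h'; exact h1 (by rw [h'])
    have h3 : σ (θ j) ≠ -t := by intro h'; exact h1 (by rw [h', neg_sq])
    rw [bb, if_neg h2, if_neg h3]

omit [NumberField K] in
lemma bb_abs_le (σ : K →+* ℂ) (i : Fin 3) : |bb θ t σ i| ≤ 1 := by
  unfold bb
  split_ifs <;> simp

include hθ in
lemma sub_ne (n : ℕ) (hn : (n : ℤ) ^ 6 - 4 * (n : ℤ) ^ 2 - 2 ≠ 0) (i : Fin 3) :
    (n : K) - θ i ≠ 0 := by
  intro h
  have h1 : θ i = n := by linear_combination -h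
  have h2 := hθ i
  rw [h1] at h2
  apply hn
  have : (((n : ℤ) ^ 6 - 4 * (n : ℤ) ^ 2 - 2 : ℤ) : K) = 0 := by
    push_cast
    exact h2
  exact_mod_cast this

include hθ in
lemma add_ne (n : ℕ) (hn : (n : ℤ) ^ 6 - 4 * (n : ℤ) ^ 2 - 2 ≠ 0) (i : Fin 3) :
    (n : K) + θ i ≠ 0 := by
  intro h
  have h1 : θ i = -n := by linear_combination h
  have h2 := hθ i
  rw [h1] at h2
  apply hn
  have : (((n : ℤ) ^ 6 - 4 * (n : ℤ) ^ 2 - 2 : ℤ) : K) = 0 := by
    push_cast
    linear_combination h2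
  exact_mod_cast this

lemma ev_toReal (x : Kˣ) (σ : K →+* ℂ) : ev K σ (toReal K x : ℝ ⊗[ℚ] K) = σ x := by
  have : (toReal K x : ℝ ⊗[ℚ] K) = (1 : ℝ) ⊗ₜ[ℚ] (x : K) := rfl
  rw [this, ev_tmul]
  simp

/-- the element `(n - θ i) / (n + θ i)` -/
def Pu (n : ℕ) (hn : (n : ℤ) ^ 6 - 4 * (n : ℤ) ^ 2 - 2 ≠ 0) (i : Fin 3) : Kˣ :=
  Units.mk0 (((n : K) - θ i) / (n + θ i)) (div_ne_zero (sub_ne θ hθ n hn i) (add_ne θ hθ n hn i))

include ht1 ht2 ht in
lemma logAbs_Pu (n : ℕ) (hn : (n : ℤ) ^ 6 - 4 * (n : ℤ) ^ 2 - 2 ≠ 0) (hn1 : 1 ≤ n) (i : Fin 3)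
    (σ : K →+* ℂ) :
    logAbs K (toReal K (Pu θ hθ n hn i)) σ = bb θ t σ i * pp t n := by
  rw [← norm_quot θ hθ t ht1 ht2 ht σ i n hn1, logAbs, ev_toReal]
  simp [Pu]

include hθ hne ht1 ht2 ht in
theorem not_realExpected : ¬ RealExpected K := by
  classical
  intro hexp
  have hn1 : ((1 : ℕ) : ℤ) ^ 6 - 4 * ((1 : ℕ) : ℤ) ^ 2 - 2 ≠ 0 := by norm_num
  have hn2 : ((2 : ℕ) : ℤ) ^ 6 - 4 * ((2 : ℕ) : ℤ) ^ 2 - 2 ≠ 0 := by norm_num
  have hn3 : ((3 : ℕ) : ℤ) ^ 6 - 4 * ((3 : ℕ) : ℤ) ^ 2 - 2 ≠ 0 := by norm_num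
  set p := pp t 1 with hp
  set q := pp t 2 with hq
  set r := pp t 3 with hr
  -- rational independence
  have hind : ∀ a b c : ℤ, (a : ℝ) * p + b * q + c * r = 0 → a = 0 ∧ b = 0 ∧ c = 0 := by
    intro a b c h
    have := pp_indep_int t ht1 ht2 ht ![a, b, c] (by simpa using h)
    exact ⟨congrFun this 0, congrFun this 1, congrFun this 2⟩
  have hindQ : ∀ a b c : ℚ, (a : ℝ) * p + b * q + c * r = 0 → a = 0 ∧ b = 0 ∧ c = 0 := by
    intro a b c h
    set N : ℤ := a.den * b.den * c.den with hN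
    have hN0 : N ≠ 0 := by simp [hN]
    have ha : ((a.num * b.den * c.den : ℤ) : ℚ) = N * a := by
      rw [hN]; push_cast
      have := Rat.den_mul_eq_num a
      linear_combination (-(b.den : ℚ) * c.den) * this
    have hb : ((b.num * a.den * c.den : ℤ) : ℚ) = N * b := by
      rw [hN]; push_cast
      have := Rat.den_mul_eq_num b
      linear_combination (-(a.den : ℚ) * c.den) * this
    have hc : ((c.num * a.den * b.den : ℤ) : ℚ) = N * c := by
      rw [hN]; push_cast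
      have := Rat.den_mul_eq_num c
      linear_combination (-(a.den : ℚ) * b.den) * this
    have ha' : ((a.num * b.den * c.den : ℤ) : ℝ) = N * a := by exact_mod_cast ha
    have hb' : ((b.num * a.den * c.den : ℤ) : ℝ) = N * b := by exact_mod_cast hb
    have hc' : ((c.num * a.den * b.den : ℤ) : ℝ) = N * c := by exact_mod_cast hc
    obtain ⟨h1, h2, h3⟩ := hind (a.num * b.den * c.den) (b.num * a.den * c.den)
      (c.num * a.den * b.den) (by rw [ha', hb', hc']; linear_combination (N : ℝ) * h)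
    have hNQ : (N : ℚ) ≠ 0 := by exact_mod_cast hN0
    refine ⟨?_, ?_, ?_⟩
    · rw [h1] at ha
      simpa [hNQ] using ha.symm
    · rw [h2] at hb
      simpa [hNQ] using hb.symm
    · rw [h3] at hc
      simpa [hNQ] using hc.symm
  have hp0 : p ≠ 0 := by
    intro h
    have := (hind 1 0 0 (by rw [h]; simp)).1
    omega
  have hr0 : r ≠ 0 := by
    intro h
    have := (hind 0 0 1 (by rw [h]; simp)).2.2
    omega
  -- the three generators
  set x : Kˣ := Pu θ hθ 1 hn1 1 * Pu θ hθ 2 hn2 2 with hx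
  set y : Kˣ := (Pu θ hθ 1 hn1 0)⁻¹ * Pu θ hθ 3 hn3 2 with hy
  set z : Kˣ := (Pu θ hθ 2 hn2 0)⁻¹ * (Pu θ hθ 3 hn3 1)⁻¹ with hz
  set b : (K →+* ℂ) → Fin 3 → ℝ := bb θ t with hb
  have hPu1 : ∀ i σ, logAbs K (toReal K (Pu θ hθ 1 hn1 i)) σ = b σ i * p := fun i σ =>
    logAbs_Pu θ hθ t ht1 ht2 ht 1 hn1 le_rfl i σ
  have hPu2 : ∀ i σ, logAbs K (toReal K (Pu θ hθ 2 hn2 i)) σ = b σ i * q := fun i σ =>
    logAbs_Pu θ hθ t ht1 ht2 ht 2 hn2 (by norm_num) i σ
  have hPu3 : ∀ i σ, logAbs K (toReal K (Pu θ hθ 3 hn3 i)) σ = b σ i * r := fun i σ =>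
    logAbs_Pu θ hθ t ht1 ht2 ht 3 hn3 (by norm_num) i σ
  set lx := logAbs K (toReal K x) with hlx
  set ly := logAbs K (toReal K y) with hly
  set lz := logAbs K (toReal K z) with hlz
  have hlxσ : ∀ σ, lx σ = b σ 1 * p + b σ 2 * q := by
    intro σ
    rw [hlx, hx, map_mul, logAbs_mul, Pi.add_apply, hPu1, hPu2]
  have hlyσ : ∀ σ, ly σ = - (b σ 0 * p) + b σ 2 * r := by
    intro σ
    rw [hly, hy, map_mul, logAbs_mul, Pi.add_apply, map_inv, logAbs_inv, Pi.neg_apply, hPu1, hPu3]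
  have hlzσ : ∀ σ, lz σ = - (b σ 0 * q) - b σ 1 * r := by
    intro σ
    rw [hlz, hz, map_mul, logAbs_mul, Pi.add_apply, map_inv, map_inv, logAbs_inv, logAbs_inv,
      Pi.neg_apply, Pi.neg_apply, hPu2, hPu3]
    ring
  let S : Submodule ℝ ((K →+* ℂ) → ℝ) := Submodule.span ℝ {lx, ly, lz}
  have hmemS : ∀ v, v ∈ S ↔ ∃ α β γ : ℝ, α • lx + β • ly + γ • lz = v := fun v =>
    Submodule.mem_span_triple
  let L : Subgroup Kˣ := Subgroup.closure {x, y, z}
  have hLfg : L.FG := ⟨{x, y, z}, by simp [L]⟩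
  have hxL : x ∈ L := Subgroup.subset_closure (by simp)
  have hyL : y ∈ L := Subgroup.subset_closure (by simp)
  have hzL : z ∈ L := Subgroup.subset_closure (by simp)
  have hLS : ∀ g ∈ L, logAbs K (toReal K g) ∈ S := by
    intro g hg
    induction hg using Subgroup.closure_induction with
    | mem g hg =>
      rcases hg with rfl | rfl | rfl
      · exact Submodule.subset_span (by simp [hlx])
      · exact Submodule.subset_span (by simp [hly])
      · exact Submodule.subset_span (by simp [hlz])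
    | one => rw [map_one, logAbs_one]; exact S.zero_mem
    | mul a b _ _ ha hb => rw [map_mul, logAbs_mul]; exact S.add_mem ha hb
    | inv a _ ha => rw [map_inv, logAbs_inv]; exact S.neg_mem ha
  choose σ hσ using exists_emb θ hθ t ht
  have hbσ : ∀ i j, b (σ i) j = if j = i then 1 else 0 := fun i j =>
    bb_of_eq θ hne t (σ i) i (hσ i) j
  have b00 : b (σ 0) 0 = 1 := by rw [hbσ, if_pos rfl]
  have b01 : b (σ 0) 1 = 0 := by rw [hbσ, if_neg (by decide)]
  have b02 : b (σ 0) 2 = 0 := by rw [hbσ, if_neg (by decide)]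
  have b10 : b (σ 1) 0 = 0 := by rw [hbσ, if_neg (by decide)]
  have b11 : b (σ 1) 1 = 1 := by rw [hbσ, if_pos rfl]
  have b12 : b (σ 1) 2 = 0 := by rw [hbσ, if_neg (by decide)]
  have b20 : b (σ 2) 0 = 0 := by rw [hbσ, if_neg (by decide)]
  have b21 : b (σ 2) 1 = 0 := by rw [hbσ, if_neg (by decide)]
  have b22 : b (σ 2) 2 = 1 := by rw [hbσ, if_pos rfl]
  have hS : ∀ s : (K →+* ℂ) → ℚ, (fun σ => (s σ : ℝ)) ∈ S → s = 0 := by
    intro s hs
    obtain ⟨α, β, γ, h⟩ := (hmemS _).mp hs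
    have hsσ : ∀ τ, (s τ : ℝ) = b τ 0 * (-(β * p) - γ * q) + b τ 1 * (α * p - γ * r) +
        b τ 2 * (α * q + β * r) := by
      intro τ
      have := congrFun h τ
      simp only [Pi.add_apply, Pi.smul_apply, smul_eq_mul, hlxσ, hlyσ, hlzσ] at this
      rw [← this]; ring
    have h0 := hsσ (σ 0)
    have h1 := hsσ (σ 1)
    have h2 := hsσ (σ 2)
    rw [b00, b01, b02] at h0
    rw [b10, b11, b12] at h1
    rw [b20, b21, b22] at h2
    have hrel : ((s (σ 2) : ℚ) : ℝ) * p + ((- s (σ 1) : ℚ) : ℝ) * q + ((s (σ 0) : ℚ) : ℝ) * r = 0 := by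
      push_cast
      rw [h0, h1, h2]; ring
    obtain ⟨e1, e2, e3⟩ := hindQ _ _ _ hrel
    have e2' : s (σ 1) = 0 := by simpa using e2
    rw [e1, Rat.cast_zero] at h2
    rw [e2', Rat.cast_zero] at h1
    rw [e3, Rat.cast_zero] at h0
    have f0 : -(β * p) - γ * q = 0 := by linear_combination -h0
    have f1 : α * p - γ * r = 0 := by linear_combination -h1
    have f2 : α * q + β * r = 0 := by linear_combination -h2
    funext τ
    have := hsσ τ
    rw [f0, f1, f2] at this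
    simpa using this
  -- the sequence of elements
  let j : ℕ → ℤ := fun k => -⌊(k : ℝ) * q / r⌋
  let m : ℕ → ℤ := fun k => ⌊(k : ℝ) * p / r⌋
  let g : ℕ → Kˣ := fun k => x ^ k * y ^ j k * z ^ m k
  have hgL : ∀ k, g k ∈ L := fun k =>
    L.mul_mem (L.mul_mem (L.pow_mem hxL k) (L.zpow_mem hyL _)) (L.zpow_mem hzL _)
  have hgl : ∀ k τ, logAbs K (toReal K (g k)) τ = k * lx τ + j k * ly τ + m k * lz τ := by
    intro k τ
    simp only [g, map_mul, map_pow, map_zpow, logAbs_mul, logAbs_pow, logAbs_zpow, Pi.add_apply,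
      Pi.smul_apply]
    rw [nsmul_eq_mul, zsmul_eq_mul, zsmul_eq_mul]
  have hrelx : ∀ τ, lx τ = q / r * ly τ - p / r * lz τ := by
    intro τ
    rw [hlxσ, hlyσ, hlzσ]
    field_simp
    ring
  have hbabs : ∀ τ i, |b τ i| ≤ 1 := fun τ i => bb_abs_le θ t τ i
  have hlyb : ∀ τ, |ly τ| ≤ |p| + |r| := by
    intro τ
    rw [hlyσ]
    refine (abs_add_le _ _).trans ?_
    rw [abs_neg, abs_mul, abs_mul]
    exact add_le_add (mul_le_of_le_one_left (abs_nonneg _) (hbabs τ 0))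
      (mul_le_of_le_one_left (abs_nonneg _) (hbabs τ 2))
  have hlzb : ∀ τ, |lz τ| ≤ |q| + |r| := by
    intro τ
    rw [hlzσ]
    refine (abs_sub _ _).trans ?_
    rw [abs_neg, abs_mul, abs_mul]
    exact add_le_add (mul_le_of_le_one_left (abs_nonneg _) (hbabs τ 0))
      (mul_le_of_le_one_left (abs_nonneg _) (hbabs τ 1))
  have hbound : ∀ k τ, |logAbs K (toReal K (g k)) τ| ≤ (|p| + |r|) + (|q| + |r|) := by
    intro k τ
    have e1 : logAbs K (toReal K (g k)) τ =
        Int.fract ((k : ℝ) * q / r) * ly τ + (- Int.fract ((k : ℝ) * p / r)) * lz τ := by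
      rw [hgl, hrelx]
      simp only [j, m, Int.fract]
      push_cast
      ring
    rw [e1]
    refine (abs_add_le _ _).trans ?_
    rw [abs_mul, abs_mul, abs_neg]
    have f1 : |Int.fract ((k : ℝ) * q / r)| ≤ 1 := by
      rw [abs_of_nonneg (Int.fract_nonneg _)]; exact (Int.fract_lt_one _).le
    have f2 : |Int.fract ((k : ℝ) * p / r)| ≤ 1 := by
      rw [abs_of_nonneg (Int.fract_nonneg _)]; exact (Int.fract_lt_one _).le
    exact add_le_add ((mul_le_of_le_one_left (abs_nonneg _) f1).trans (hlyb τ))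
      ((mul_le_of_le_one_left (abs_nonneg _) f2).trans (hlzb τ))
  have hinj : Function.Injective (fun k => logAbs K (toReal K (g k))) := by
    intro k l hkl
    have h1 := congrFun hkl (σ 1)
    have h0 := congrFun hkl (σ 0)
    simp only [hgl, hlxσ, hlyσ, hlzσ, b00, b01, b02, b10, b11, b12] at h0 h1
    have e0 := hind (j k - j l) (m k - m l) 0 (by push_cast; linear_combination -h0)
    have e1 := hind ((k : ℤ) - l) 0 (m l - m k) (by push_cast; linear_combination h1)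
    have := e1.1
    omega
  obtain ⟨B, hB1, hB2⟩ := hexp L hLfg
  exact general_criterion K L S hLS hS g hgL _ hbound hinj B hB1 hB2

end

/-- There is a number field `K` for which the real part of the expected answer fails for
`R_{K/ℚ}(𝔾_m)`. -/
theorem exists_not_realExpected : ∃ (K : Type) (_ : Field K) (_ : NumberField K),
    ¬ RealExpected K := by
  obtain ⟨K, hF, hN, θ, hθ, hne⟩ := exists_field
  obtain ⟨t, ht1, ht2, ht⟩ := exists_real_root
  exact ⟨K, hF, hN, not_realExpected θ hθ hne t ht1 ht2 ht⟩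

end

end Pool.Agent.H421R2
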